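import Pool.Agent.W305.SA.NB

/-! SA-DET -/

set_option autoImplicit false

namespace Pool.Agent.W305.SA.DET

open NumberField Pool.Agent.W659.SA MvPolynomial

/-- the value of a polynomial with exponents in `Λ` -/
theorem eval_eq_sum {R : Type} [CommRing R] {n : ℕ} (Λ : Finset (Fin n →₀ ℕ))
    (g : MvPolynomial (Fin n) R) (hg : g.support ⊆ Λ) (x : Fin n → R) :
    eval x g = ∑ α : {α // α ∈ Λ}, g.coeff α.1 * ∏ i, x i ^ (α.1 i) := by
  rw [eval_eq', Finset.sum_subset hg, ← Finset.sum_coe_sort]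
  intro d _ hd
  rw [notMem_support_iff.mp hd, zero_mul]

/-- the case of a proper span -/
theorem caseA {K : Type} [Field K] {n : ℕ} (Λ : Finset (Fin n →₀ ℕ)) (Y : Set (Fin n → K))
    (h : Submodule.span K ((fun x : Fin n → K => fun α : {α // α ∈ Λ} => ∏ i, x i ^ (α.1 i)) '' Y)
      ≠ ⊤) :
    ∃ Γ : MvPolynomial (Fin n) K, Γ ≠ 0 ∧ Γ.support ⊆ Λ ∧ ∀ x ∈ Y, eval x Γ = 0 := by
  classical
  obtain ⟨f, hf0, hf⟩ := Submodule.exists_le_ker_of_lt_top _ (lt_top_iff_ne_top.mpr h)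
  let γ : {α // α ∈ Λ} → K := fun α => f (fun β => if α = β then 1 else 0)
  have hfγ : ∀ v : {α // α ∈ Λ} → K, f v = ∑ α, v α * γ α := by
    intro v
    rw [LinearMap.pi_apply_eq_sum_univ f v]
    rfl
  let Γ : MvPolynomial (Fin n) K := ∑ α : {α // α ∈ Λ}, monomial α.1 (γ α)
  have hcoeff : ∀ β : {α // α ∈ Λ}, Γ.coeff β.1 = γ β := by
    intro β
    simp only [Γ, coeff_sum, coeff_monomial]
    rw [Finset.sum_eq_single β]
    · simp
    · intro α _ hne
      rw [if_neg]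
      intro h1
      exact hne (Subtype.ext h1)
    · intro h1; exact absurd (Finset.mem_univ β) h1
  have hsupp : Γ.support ⊆ Λ := by
    intro d hd
    by_contra hdΛ
    rw [mem_support_iff] at hd
    apply hd
    simp only [Γ, coeff_sum, coeff_monomial]
    refine Finset.sum_eq_zero fun α _ => ?_
    rw [if_neg]
    intro h1
    exact hdΛ (h1 ▸ α.2)
  refine ⟨Γ, ?_, hsupp, ?_⟩
  · intro h0
    apply hf0
    refine LinearMap.ext fun v => ?_
    rw [hfγ]
    refine Finset.sum_eq_zero fun α _ => ?_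
    rw [← hcoeff α, h0, coeff_zero, mul_zero]
  · intro x hx
    rw [eval_eq_sum Λ Γ hsupp x]
    have h1 : f (fun α : {α // α ∈ Λ} => ∏ i, x i ^ (α.1 i)) = 0 :=
      hf (Submodule.subset_span ⟨x, hx, rfl⟩)
    rw [hfγ] at h1
    rw [← h1]
    refine Finset.sum_congr rfl fun α _ => ?_
    rw [hcoeff α, mul_comm]

/-- the case of the full span -/
theorem caseB {K : Type} [Field K] {n : ℕ} (Λ : Finset (Fin n →₀ ℕ)) (Y : Set (Fin n → K))
    (h : Submodule.span K ((fun x : Fin n → K => fun α : {α // α ∈ Λ} => ∏ i, x i ^ (α.1 i)) '' Y)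
      = ⊤) :
    ∃ x : {α // α ∈ Λ} → (Fin n → K), (∀ β, x β ∈ Y) ∧
      (Matrix.of fun β α : {α // α ∈ Λ} => ∏ i, x β i ^ (α.1 i)).det ≠ 0 := by
  classical
  set m : (Fin n → K) → ({α // α ∈ Λ} → K) := fun x α => ∏ i, x i ^ (α.1 i) with hm
  obtain ⟨b, hbs, hspan, hli⟩ := exists_linearIndependent K (m '' Y)
  rw [h] at hspan
  have hB : ⊤ ≤ Submodule.span K (Set.range (Subtype.val : b → ({α // α ∈ Λ} → K))) := by
    rw [Subtype.range_coe, hspan]
  let bs := Module.Basis.mk hli hB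
  let e : {α // α ∈ Λ} ≃ b := (Pi.basisFun K {α // α ∈ Λ}).indexEquiv bs
  have hx : ∀ β, ∃ x ∈ Y, m x = (e β : {α // α ∈ Λ} → K) := fun β => hbs (e β).2
  choose x hxY hxm using hx
  refine ⟨x, hxY, ?_⟩
  have hli2 : LinearIndependent K (fun β => m (x β)) := by
    have h1 : (fun β => m (x β)) = (Subtype.val : b → ({α // α ∈ Λ} → K)) ∘ e :=
      funext fun β => hxm β
    rw [h1]
    exact hli.comp e e.injective
  have h2 : IsUnit (Matrix.of fun β α : {α // α ∈ Λ} => ∏ i, x β i ^ (α.1 i)) := by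
    rw [← Matrix.linearIndependent_rows_iff_isUnit]
    exact hli2
  exact ((Matrix.isUnit_iff_isUnit_det _).mp h2).ne_zero

theorem main : S_DET := by
  intro K _ _ N ω n Λ
  classical
  obtain ⟨B₁, hB₁, hb⟩ := vec_bound ω
  set d : ℕ := Module.finrank ℚ K with hd
  set M : ℕ := Fintype.card {α // α ∈ Λ} with hM
  set k0 : ℕ := Λ.sup (fun α => ∑ i, α i) with hk0
  set C₀ : ℕ := M.factorial * B₁ + (k0 * M + 1) * d with hC₀
  have hMB : 1 ≤ M.factorial * B₁ := Nat.mul_pos (Nat.factorial_pos M) hB₁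
  refine ⟨C₀, by omega, ?_⟩
  intro H T hT hprod S hS hmod
  by_cases hspan : Submodule.span K
      ((fun x : Fin n → K => fun α : {α // α ∈ Λ} => ∏ i, x i ^ (α.1 i)) ''
        ((fun c : Fin n × Fin N → ℤ => fun i => ((vec ω c i : 𝓞 K) : K)) '' S)) = ⊤
  swap
  · obtain ⟨Γ, h0, h1, h2⟩ := caseA Λ _ hspan
    exact ⟨Γ, h0, h1, fun c hc => h2 _ ⟨c, hc, rfl⟩⟩
  exfalso
  obtain ⟨x, hxY, hdet⟩ := caseB Λ _ hspan
  choose c hcS hcx using hxY
  set b : ℕ := B₁ * (H + 1) with hbdef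
  have hb1 : 1 ≤ b := Nat.mul_pos hB₁ (Nat.succ_pos H)
  have hb1' : (1 : ℝ) ≤ b := by exact_mod_cast hb1
  let A : Matrix {α // α ∈ Λ} {α // α ∈ Λ} (𝓞 K) :=
    Matrix.of fun β α => ∏ i, vec ω (c β) i ^ (α.1 i)
  have hAdet : ((A.det : 𝓞 K) : K) =
      (Matrix.of fun β α : {α // α ∈ Λ} => ∏ i, x β i ^ (α.1 i)).det := by
    change algebraMap (𝓞 K) K A.det = _
    rw [RingHom.map_det]
    congr 1
    ext β α
    simp only [A, RingHom.mapMatrix_apply, Matrix.map_apply, Matrix.of_apply, map_prod, map_pow]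
    refine Finset.prod_congr rfl fun i _ => ?_
    rw [← hcx β]
  have hδ : A.det ≠ 0 := by
    intro h0
    apply hdet
    rw [← hAdet, h0]; simp
  have hbound : ∀ τ : K →+* ℂ, ‖τ (A.det : K)‖ ≤ ((M.factorial * (b ^ k0) ^ M : ℕ) : ℝ) := by
    intro τ
    have h1 : τ ((A.det : 𝓞 K) : K) = (A.map (τ.comp (algebraMap (𝓞 K) K))).det := by
      change (τ.comp (algebraMap (𝓞 K) K)) A.det = _
      rw [RingHom.map_det]; rfl
    rw [h1]
    have h2 := Matrix.det_le (A := A.map (τ.comp (algebraMap (𝓞 K) K)))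
      (abv := NormedField.toAbsoluteValue ℂ) (x := (b : ℝ) ^ k0) (by
        intro β α
        change ‖(τ.comp (algebraMap (𝓞 K) K)) (∏ i, vec ω (c β) i ^ (α.1 i))‖ ≤ _
        rw [map_prod, norm_prod]
        calc ∏ i, ‖(τ.comp (algebraMap (𝓞 K) K)) (vec ω (c β) i ^ (α.1 i))‖
            ≤ ∏ i, (b : ℝ) ^ (α.1 i) := by
              refine Finset.prod_le_prod (fun _ _ => norm_nonneg _) fun i _ => ?_
              rw [map_pow, norm_pow]
              exact pow_le_pow_left₀ (norm_nonneg _) (hb n H (c β) (hS _ (hcS β)) τ i) _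
          _ = (b : ℝ) ^ (∑ i, α.1 i) := by rw [Finset.prod_pow_eq_pow_sum]
          _ ≤ (b : ℝ) ^ k0 := by
              refine pow_le_pow_right₀ hb1' ?_
              exact Finset.le_sup (f := fun α : Fin n →₀ ℕ => ∑ i, α i) α.2)
    have h3 : NormedField.toAbsoluteValue ℂ (A.map (τ.comp (algebraMap (𝓞 K) K))).det =
        ‖(A.map (τ.comp (algebraMap (𝓞 K) K))).det‖ := rfl
    rw [h3] at h2
    refine h2.trans (le_of_eq ?_)
    rw [nsmul_eq_mul]; push_cast; rfl
  have hfin := key A.det hδ T hT (fun p hp => by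
    obtain ⟨k, i1, i2, φ, g, hg0, hgs, hg⟩ := hmod p hp
    refine ⟨k, i1, i2, φ, ?_⟩
    rw [RingHom.map_det]
    rw [← Matrix.exists_mulVec_eq_zero_iff]
    refine ⟨fun α => g.coeff α.1, ?_, ?_⟩
    · intro h0
      apply hg0
      ext m
      rw [coeff_zero]
      by_cases hm : m ∈ Λ
      · exact congrFun h0 ⟨m, hm⟩
      · exact notMem_support_iff.mp fun h => hm (hgs h)
    · ext β
      have h1 := hg (c β) (hcS β)
      rw [eval_eq_sum Λ g hgs] at h1
      simp only [Matrix.mulVec, dotProduct, Pi.zero_apply]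
      rw [← h1]
      refine Finset.sum_congr rfl fun α _ => ?_
      simp only [A, RingHom.mapMatrix_apply, Matrix.map_apply, Matrix.of_apply, map_prod, map_pow]
      rw [mul_comm]) _ hbound
  have hfin2 : (M.factorial * (b ^ k0) ^ M) ^ d ≤ (C₀ * (H + 1)) ^ C₀ := by
    have g0 : M.factorial * B₁ * (H + 1) = M.factorial * b := by rw [hbdef]; ring
    have g1 : M.factorial * (b ^ k0) ^ M ≤ (M.factorial * B₁ * (H + 1)) ^ (k0 * M + 1) := by
      rw [g0, pow_succ', ← pow_mul]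
      exact Nat.mul_le_mul (Nat.le_mul_of_pos_right _ hb1)
        (Nat.pow_le_pow_left (Nat.le_mul_of_pos_left _ (Nat.factorial_pos M)) _)
    calc (M.factorial * (b ^ k0) ^ M) ^ d ≤ ((M.factorial * B₁ * (H + 1)) ^ (k0 * M + 1)) ^ d :=
          Nat.pow_le_pow_left g1 _
      _ = (M.factorial * B₁ * (H + 1)) ^ ((k0 * M + 1) * d) := by rw [← pow_mul]
      _ ≤ (C₀ * (H + 1)) ^ ((k0 * M + 1) * d) :=
          Nat.pow_le_pow_left (Nat.mul_le_mul_right _ (Nat.le_add_right _ _)) _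
      _ ≤ (C₀ * (H + 1)) ^ C₀ :=
          Nat.pow_le_pow_right (Nat.mul_pos (by omega) (Nat.succ_pos H)) (Nat.le_add_left _ _)
  exact absurd (lt_of_lt_of_le hprod (hfin.trans hfin2)) (lt_irrefl _)

end Pool.Agent.W305.SA.DET
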