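import Pool.Agent.W305.SA.NB

/-! SA-DETF -/

set_option autoImplicit false

namespace Pool.Agent.W305.SA.DETF

open NumberField Pool.Agent.W659.SA

/-- the choice of the elements `w l l'` -/
theorem exists_w {K : Type} [Field K] [NumberField K] {n : ℕ} (x y : Fin n → 𝓞 K)
    (hy : ∃ i, y i ≠ 0) (h : ¬ ∃ z : K, ∀ i, ((x i : 𝓞 K) : K) = z * ((y i : 𝓞 K) : K)) :
    ∃ i j, y i * x j - y j * x i ≠ 0 := by
  by_contra hcon
  push Not at hcon
  obtain ⟨i0, hi0⟩ := hy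
  apply h
  have hi0' : ((y i0 : 𝓞 K) : K) ≠ 0 := by
    simpa using hi0
  refine ⟨((x i0 : 𝓞 K) : K) / ((y i0 : 𝓞 K) : K), fun i => ?_⟩
  have h1 := hcon i0 i
  have h2 : ((y i0 : 𝓞 K) : K) * ((x i : 𝓞 K) : K) - ((y i : 𝓞 K) : K) * ((x i0 : 𝓞 K) : K) = 0 := by
    have := congrArg (fun t : 𝓞 K => (t : K)) h1
    simpa using this
  field_simp
  linear_combination h2

theorem main : S_DETF := by
  intro K _ _ N ω n D
  classical
  obtain ⟨B₁, hB₁, hb⟩ := vec_bound ω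
  set E : ℕ := (D + 1) + (D + 1) * (D + 1) with hE
  set d : ℕ := Module.finrank ℚ K with hd
  refine ⟨2 * B₁ ^ 2 + 2 * (E * d), ?_, ?_⟩
  · have : 1 ≤ B₁ ^ 2 := Nat.one_le_pow _ _ hB₁
    omega
  intro H T hT hprod c hc hx0 hmod
  by_contra hcon
  push Not at hcon
  -- the vectors
  let x : Fin (D + 1) → Fin n → 𝓞 K := fun l i => vec ω (c l) i
  choose i0 hi0 using hx0
  have hw : ∀ l l' : Fin (D + 1), l ≠ l' → ∃ i j, x l' i * x l j - x l' j * x l i ≠ 0 := by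
    intro l l' hne
    refine exists_w (x l) (x l') ⟨i0 l', hi0 l'⟩ ?_
    rintro ⟨z, hz⟩
    obtain ⟨i, hi⟩ := hcon l l' hne z
    exact hi (hz i)
  set b : ℕ := B₁ * (H + 1) with hbdef
  have hb1 : 1 ≤ b := Nat.mul_pos hB₁ (Nat.succ_pos H)
  have hxb : ∀ l i (τ : K →+* ℂ), ‖τ ((x l i : 𝓞 K) : K)‖ ≤ (b : ℝ) := fun l i τ =>
    hb n H (c l) (hc l) τ i
  have hb1' : (1 : ℝ) ≤ b := by exact_mod_cast hb1
  have hW : ∀ l l' : Fin (D + 1), ∃ w : 𝓞 K, w ≠ 0 ∧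
      (∀ τ : K →+* ℂ, ‖τ (w : K)‖ ≤ 2 * (b : ℝ) ^ 2) ∧
      (l ≠ l' → ∀ (k : Type) (_ : Field k) (φ : 𝓞 K →+* k) (z : k),
        (∀ i, φ (x l i) = z * φ (x l' i)) → φ w = 0) := by
    intro l l'
    by_cases hne : l = l'
    · refine ⟨1, one_ne_zero, fun τ => ?_, fun h => absurd hne h⟩
      have : ‖τ ((1 : 𝓞 K) : K)‖ = 1 := by simp
      rw [this]; nlinarith
    · obtain ⟨i, j, hij⟩ := hw l l' hne
      refine ⟨_, hij, fun τ => ?_, fun _ k _ φ z hz => ?_⟩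
      · have h1 : τ ((x l' i * x l j - x l' j * x l i : 𝓞 K) : K) =
            τ ((x l' i : 𝓞 K) : K) * τ ((x l j : 𝓞 K) : K) -
              τ ((x l' j : 𝓞 K) : K) * τ ((x l i : 𝓞 K) : K) := by
          simp
        rw [h1]
        refine (norm_sub_le _ _).trans ?_
        rw [norm_mul, norm_mul]
        have e1 := mul_le_mul (hxb l' i τ) (hxb l j τ) (norm_nonneg _) (by linarith)
        have e2 := mul_le_mul (hxb l' j τ) (hxb l i τ) (norm_nonneg _) (by linarith)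
        nlinarith
      · rw [map_sub, map_mul, map_mul, hz j, hz i]; ring
  choose w hw0 hwb hwφ using hW
  let δ : 𝓞 K := (∏ l, x l (i0 l)) * ∏ l, ∏ l', w l l'
  have hδ : δ ≠ 0 := by
    refine mul_ne_zero (Finset.prod_ne_zero_iff.mpr fun l _ => hi0 l) ?_
    exact Finset.prod_ne_zero_iff.mpr fun l _ => Finset.prod_ne_zero_iff.mpr fun l' _ => hw0 l l'
  have hbound : ∀ τ : K →+* ℂ, ‖τ (δ : K)‖ ≤ (((2 * b ^ 2) ^ E : ℕ) : ℝ) := by
    intro τ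
    have h1 : τ ((δ : 𝓞 K) : K) = (∏ l, τ ((x l (i0 l) : 𝓞 K) : K)) *
        ∏ l, ∏ l', τ ((w l l' : 𝓞 K) : K) := by
      change (τ.comp (algebraMap (𝓞 K) K)) δ = _
      simp only [δ, map_mul, map_prod]
      rfl
    rw [h1, norm_mul, norm_prod, norm_prod]
    have e1 : ∏ l, ‖τ ((x l (i0 l) : 𝓞 K) : K)‖ ≤ (2 * (b : ℝ) ^ 2) ^ (D + 1) := by
      calc ∏ l, ‖τ ((x l (i0 l) : 𝓞 K) : K)‖ ≤ ∏ _l : Fin (D + 1), (2 * (b : ℝ) ^ 2) := by
            refine Finset.prod_le_prod (fun _ _ => norm_nonneg _) (fun l _ => ?_)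
            refine (hxb l _ τ).trans ?_
            nlinarith
        _ = _ := by simp
    have e2 : ∏ l, ‖∏ l', τ ((w l l' : 𝓞 K) : K)‖ ≤ (2 * (b : ℝ) ^ 2) ^ ((D + 1) * (D + 1)) := by
      calc ∏ l, ‖∏ l', τ ((w l l' : 𝓞 K) : K)‖ ≤
            ∏ _l : Fin (D + 1), (2 * (b : ℝ) ^ 2) ^ (D + 1) := by
            refine Finset.prod_le_prod (fun _ _ => norm_nonneg _) (fun l _ => ?_)
            rw [norm_prod]
            calc ∏ l', ‖τ ((w l l' : 𝓞 K) : K)‖ ≤ ∏ _l' : Fin (D + 1), (2 * (b : ℝ) ^ 2) := by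
                  exact Finset.prod_le_prod (fun _ _ => norm_nonneg _) (fun l' _ => hwb l l' τ)
              _ = _ := by simp
        _ = _ := by rw [Finset.prod_const, Finset.card_univ, Fintype.card_fin, ← pow_mul]
    push_cast
    rw [hE, pow_add]
    exact mul_le_mul e1 e2 (Finset.prod_nonneg fun _ _ => norm_nonneg _) (by positivity)
  have hfin := key δ hδ T hT (fun p hp => by
    obtain ⟨k, i1, i2, φ, h⟩ := hmod p hp
    refine ⟨k, i1, i2, φ, ?_⟩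
    rcases h with ⟨l, hl⟩ | ⟨l, l', hne, z, hz⟩
    · simp only [δ, map_mul, map_prod]
      rw [Finset.prod_eq_zero (Finset.mem_univ l) (hl (i0 l)), zero_mul]
    · have h0 : ∏ l, ∏ l', φ (w l l') = 0 :=
        Finset.prod_eq_zero (Finset.mem_univ l) (Finset.prod_eq_zero (Finset.mem_univ l')
          (hwφ l l' hne k i1 φ z hz))
      simp only [δ, map_mul, map_prod]
      rw [h0, mul_zero]) _ hbound
  have hfin2 : ((2 * b ^ 2) ^ E) ^ d ≤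
      ((2 * B₁ ^ 2 + 2 * (E * d)) * (H + 1)) ^ (2 * B₁ ^ 2 + 2 * (E * d)) := by
    have hB2 : 1 ≤ B₁ ^ 2 := Nat.one_le_pow _ _ hB₁
    have g1 : 2 * b ^ 2 ≤ (2 * B₁ ^ 2 * (H + 1)) ^ 2 := by
      rw [hbdef]
      have : (2 * B₁ ^ 2 * (H + 1)) ^ 2 = (2 * B₁ ^ 2) * (2 * (B₁ * (H + 1)) ^ 2) := by ring
      rw [this]
      exact Nat.le_mul_of_pos_left _ (by omega)
    calc ((2 * b ^ 2) ^ E) ^ d = (2 * b ^ 2) ^ (E * d) := by rw [← pow_mul]
      _ ≤ ((2 * B₁ ^ 2 * (H + 1)) ^ 2) ^ (E * d) := Nat.pow_le_pow_left g1 _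
      _ = (2 * B₁ ^ 2 * (H + 1)) ^ (2 * (E * d)) := by rw [← pow_mul]
      _ ≤ ((2 * B₁ ^ 2 + 2 * (E * d)) * (H + 1)) ^ (2 * (E * d)) :=
          Nat.pow_le_pow_left (Nat.mul_le_mul_right _ (Nat.le_add_right _ _)) _
      _ ≤ ((2 * B₁ ^ 2 + 2 * (E * d)) * (H + 1)) ^ (2 * B₁ ^ 2 + 2 * (E * d)) :=
          Nat.pow_le_pow_right (Nat.mul_pos (by omega) (Nat.succ_pos H)) (Nat.le_add_left _ _)
  exact absurd (lt_of_lt_of_le hprod (hfin.trans hfin2)) (lt_irrefl _)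

end Pool.Agent.W305.SA.DETF
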