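import Pool.Agent.W659.SA.Defs

/-!
Tools for SA-DET and SA-DETF: an algebraic integer which vanishes in fields of characteristic `p` for
all `p ∈ T` and is nonzero has a norm divisible by the product of `T`.
-/

set_option autoImplicit false

namespace Pool.Agent.W305.SA

open NumberField

variable {K : Type} [Field K] [NumberField K]

theorem norm_le (δ : 𝓞 K) (B : ℕ) (hB : ∀ τ : K →+* ℂ, ‖τ (δ : K)‖ ≤ (B : ℝ)) :
    (Algebra.norm ℤ δ).natAbs ≤ B ^ (Module.finrank ℚ K) := by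
  have h1 : ((Algebra.norm ℤ δ : ℤ) : ℚ) = Algebra.norm ℚ (δ : K) := Algebra.coe_norm_int δ
  have h2 := Algebra.norm_eq_prod_embeddings ℚ ℂ (δ : K)
  have h3 : ‖((Algebra.norm ℤ δ : ℤ) : ℂ)‖ ≤ (B : ℝ) ^ (Module.finrank ℚ K) := by
    have h4 : ((Algebra.norm ℤ δ : ℤ) : ℂ) = algebraMap ℚ ℂ (Algebra.norm ℚ (δ : K)) := by
      rw [← h1]; simp
    rw [h4, h2, norm_prod]
    calc ∏ σ : K →ₐ[ℚ] ℂ, ‖σ (δ : K)‖ ≤ ∏ _σ : K →ₐ[ℚ] ℂ, (B : ℝ) := by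
          refine Finset.prod_le_prod (fun i _ => norm_nonneg _) (fun i _ => ?_)
          exact hB (i : K →+* ℂ)
      _ = (B : ℝ) ^ (Module.finrank ℚ K) := by
          rw [Finset.prod_const, Finset.card_univ, AlgHom.card]
  have h5 : ‖((Algebra.norm ℤ δ : ℤ) : ℂ)‖ = (((Algebra.norm ℤ δ).natAbs : ℕ) : ℝ) := by
    rw [Complex.norm_intCast, Nat.cast_natAbs]; simp
  rw [h5] at h3
  exact_mod_cast h3

theorem key (δ : 𝓞 K) (hδ : δ ≠ 0) (T : Finset ℕ) (hT : ∀ p ∈ T, p.Prime)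
    (h : ∀ p ∈ T, ∃ (k : Type) (_ : Field k) (_ : CharP k p) (φ : 𝓞 K →+* k), φ δ = 0)
    (B : ℕ) (hB : ∀ τ : K →+* ℂ, ‖τ (δ : K)‖ ≤ (B : ℝ)) :
    ∏ p ∈ T, p ≤ B ^ (Module.finrank ℚ K) := by
  have h0 : (Algebra.norm ℤ δ).natAbs ≠ 0 := by
    rw [← Ideal.absNorm_span_singleton]
    intro h0
    rw [Ideal.absNorm_eq_zero_iff] at h0
    exact hδ (Ideal.span_singleton_eq_bot.mp h0)
  have h1 : ∏ p ∈ T, p ∣ (Algebra.norm ℤ δ).natAbs := by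
    refine Finset.prod_primes_dvd _ (fun p hp => (hT p hp).prime) (fun p hp => ?_)
    obtain ⟨k, i1, i2, φ, hφ⟩ := h p hp
    have h2 := Ideal.absNorm_mem (Ideal.span {δ})
    rw [Ideal.absNorm_span_singleton, Ideal.mem_span_singleton] at h2
    obtain ⟨e, he⟩ := h2
    have h3 : (((Algebra.norm ℤ δ).natAbs : ℕ) : k) = 0 := by
      rw [← map_natCast φ, he, map_mul, hφ, zero_mul]
    exact (CharP.cast_eq_zero_iff k p _).mp h3
  exact (Nat.le_of_dvd (Nat.pos_of_ne_zero h0) h1).trans (norm_le δ B hB)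

/-- the coordinates of the vectors are bounded by `B₁ (H + 1)` -/
theorem vec_bound {N : ℕ} (ω : Module.Basis (Fin N) ℤ (𝓞 K)) : ∃ B₁ : ℕ, 1 ≤ B₁ ∧
    ∀ (n : ℕ) (H : ℕ) (c : Fin n × Fin N → ℤ), (∀ i, |c i| ≤ H) → ∀ (τ : K →+* ℂ) (i : Fin n),
      ‖τ ((Pool.Agent.W659.SA.vec ω c i : 𝓞 K) : K)‖ ≤ ((B₁ * (H + 1) : ℕ) : ℝ) := by
  classical
  obtain ⟨B₁, hB₁⟩ := exists_nat_ge (1 + ∑ τ : K →+* ℂ, ∑ j, ‖τ ((ω j : 𝓞 K) : K)‖)
  have hs0 : 0 ≤ ∑ τ : K →+* ℂ, ∑ j, ‖τ ((ω j : 𝓞 K) : K)‖ :=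
    Finset.sum_nonneg fun τ _ => Finset.sum_nonneg fun j _ => norm_nonneg _
  refine ⟨B₁, ?_, ?_⟩
  · have : (1 : ℝ) ≤ B₁ := by linarith
    exact_mod_cast this
  · intro n H c hc τ i
    have h1 : τ ((Pool.Agent.W659.SA.vec ω c i : 𝓞 K) : K) =
        ∑ j, (c (i, j) : ℂ) * τ ((ω j : 𝓞 K) : K) := by
      unfold Pool.Agent.W659.SA.vec
      change (τ.comp (algebraMap (𝓞 K) K)) (∑ j, c (i, j) • ω j) = _
      rw [map_sum]
      refine Finset.sum_congr rfl fun j _ => ?_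
      rw [zsmul_eq_mul, map_mul, map_intCast]; rfl
    have h2 : ∑ j, ‖τ ((ω j : 𝓞 K) : K)‖ ≤ ∑ τ : K →+* ℂ, ∑ j, ‖τ ((ω j : 𝓞 K) : K)‖ :=
      Finset.single_le_sum (f := fun τ : K →+* ℂ => ∑ j, ‖τ ((ω j : 𝓞 K) : K)‖)
        (fun τ _ => Finset.sum_nonneg fun j _ => norm_nonneg _) (Finset.mem_univ τ)
    have hH : (0 : ℝ) ≤ H := Nat.cast_nonneg H
    calc ‖τ ((Pool.Agent.W659.SA.vec ω c i : 𝓞 K) : K)‖
        ≤ ∑ j, ‖(c (i, j) : ℂ) * τ ((ω j : 𝓞 K) : K)‖ := by rw [h1]; exact norm_sum_le _ _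
      _ ≤ ∑ j, (H : ℝ) * ‖τ ((ω j : 𝓞 K) : K)‖ := by
          refine Finset.sum_le_sum fun j _ => ?_
          rw [norm_mul]
          refine mul_le_mul_of_nonneg_right ?_ (norm_nonneg _)
          rw [Complex.norm_intCast]
          exact_mod_cast hc (i, j)
      _ = (H : ℝ) * ∑ j, ‖τ ((ω j : 𝓞 K) : K)‖ := by rw [Finset.mul_sum]
      _ ≤ (H + 1) * B₁ := by
          refine mul_le_mul (by linarith) (by linarith) ?_ (by linarith)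
          exact Finset.sum_nonneg fun j _ => norm_nonneg _
      _ = ((B₁ * (H + 1) : ℕ) : ℝ) := by push_cast; ring

end Pool.Agent.W305.SA
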